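import Pool.Agent.W485.QL.Stm

/-!
The Cantor set `E` is uncountable.
-/

set_option autoImplicit false

open Filter Topology

namespace Pool.Agent.W381.QL

open Pool.Agent.W485.QL

theorem ell_pos (k : ℕ) : 0 < ell k := by
  unfold ell; positivity

theorem ell_add (m k : ℕ) : ell (m + k) ≤ ell m * (1 / 2) ^ k := by
  unfold ell
  rw [← pow_add]
  apply pow_le_pow_of_le_one (by norm_num) (by norm_num)
  nlinarith [Nat.zero_le (m * k), Nat.zero_le (k * k)]

theorem ell_succ (n : ℕ) : ell (n + 1) ≤ ell n / 4 := by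
  have h : ell n / 4 = (1 / 2) ^ (n ^ 2 + 20 * n + 2) := by
    unfold ell
    rw [pow_add _ _ 2]
    norm_num
    ring
  rw [h]
  unfold ell
  apply pow_le_pow_of_le_one (by norm_num) (by norm_num)
  nlinarith

theorem ell_le (n k : ℕ) (h : k ≤ n) :
    ell k = ell n * (2 : ℝ) ^ ((n ^ 2 + 20 * n) - (k ^ 2 + 20 * k)) := by
  unfold ell
  have h1 : k ^ 2 + 20 * k ≤ n ^ 2 + 20 * n := by nlinarith [Nat.pow_le_pow_left h 2]
  obtain ⟨d, hd⟩ := Nat.exists_eq_add_of_le h1
  rw [hd, Nat.add_sub_cancel_left, pow_add _ (k ^ 2 + 20 * k) d, mul_assoc, ← mul_pow]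
  norm_num

/-- the digit -/
noncomputable def bb (b : Bool) : ℝ := if b = true then 1 else 0

theorem bb_nonneg (b : Bool) : 0 ≤ bb b := by unfold bb; split_ifs <;> norm_num

theorem bb_le (b : Bool) : bb b ≤ 1 := by unfold bb; split_ifs <;> norm_num

/-- the terms -/
noncomputable def tt (s : ℕ → Bool) (k : ℕ) : ℝ := 2 * Real.pi * ell k * bb (s k)

theorem tt_nonneg (s : ℕ → Bool) (k : ℕ) : 0 ≤ tt s k := by
  unfold tt
  have := (ell_pos k).le
  have := bb_nonneg (s k)
  have := Real.pi_pos.le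
  positivity

theorem tt_le (s : ℕ → Bool) (n k : ℕ) : tt s (k + n) ≤ 2 * Real.pi * ell n * (1 / 2) ^ k := by
  unfold tt
  have h0 := Real.pi_pos.le
  have h1 := ell_add n k
  rw [add_comm k n]
  have h2 := bb_le (s (n + k))
  have h3 := (ell_pos (n + k)).le
  calc 2 * Real.pi * ell (n + k) * bb (s (n + k)) ≤ 2 * Real.pi * ell (n + k) * 1 :=
        mul_le_mul_of_nonneg_left h2 (by positivity)
    _ = 2 * Real.pi * ell (n + k) := mul_one _
    _ ≤ 2 * Real.pi * (ell n * (1 / 2) ^ k) := mul_le_mul_of_nonneg_left h1 (by positivity)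
    _ = _ := by ring

theorem geo_summable (n : ℕ) : Summable fun k : ℕ => 2 * Real.pi * ell n * (1 / 2) ^ k :=
  summable_geometric_two.mul_left _

theorem tt_summable' (s : ℕ → Bool) (n : ℕ) : Summable fun k => tt s (k + n) :=
  Summable.of_nonneg_of_le (fun _ => tt_nonneg s _) (fun k => tt_le s n k) (geo_summable n)

theorem tt_summable (s : ℕ → Bool) : Summable (tt s) := tt_summable' s 0

theorem tail_nonneg (s : ℕ → Bool) (n : ℕ) : 0 ≤ ∑' k, tt s (k + n) :=
  tsum_nonneg fun _ => tt_nonneg s _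

theorem tail_le (s : ℕ → Bool) (n : ℕ) : ∑' k, tt s (k + n) ≤ 4 * Real.pi * ell n := by
  have h1 : ∑' k, tt s (k + n) ≤ ∑' k : ℕ, 2 * Real.pi * ell n * (1 / 2) ^ k :=
    (tt_summable' s n).tsum_le_tsum (fun k => tt_le s n k) (geo_summable n)
  rw [tsum_mul_left, tsum_geometric_two] at h1
  linarith

/-- the points of the Cantor set -/
noncomputable def xs (s : ℕ → Bool) : ℝ := ∑' k, tt s k

theorem xs_split (s : ℕ → Bool) (n : ℕ) :
    xs s = ∑ k ∈ Finset.range n, tt s k + ∑' k, tt s (k + n) :=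
  ((tt_summable s).sum_add_tsum_nat_add n).symm

theorem xs_mem (s : ℕ → Bool) : xs s ∈ E := by
  intro n
  refine ⟨∑ k ∈ Finset.range (n + 1),
    (if s k = true then (2 : ℤ) ^ ((n ^ 2 + 20 * n) - (k ^ 2 + 20 * k)) else 0), ?_⟩
  have h1 : 2 * Real.pi * ell n * ((∑ k ∈ Finset.range (n + 1),
      (if s k = true then (2 : ℤ) ^ ((n ^ 2 + 20 * n) - (k ^ 2 + 20 * k)) else 0) : ℤ) : ℝ) =
      ∑ k ∈ Finset.range (n + 1), tt s k := by
    rw [Int.cast_sum, Finset.mul_sum]
    apply Finset.sum_congr rfl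
    intro k hk
    have hk' : k ≤ n := Nat.lt_succ_iff.mp (Finset.mem_range.mp hk)
    unfold tt bb
    rw [ell_le n k hk']
    split_ifs
    · push_cast
      ring
    · simp
  rw [h1, xs_split s (n + 1), add_sub_cancel_left, abs_of_nonneg (tail_nonneg s _)]
  have h2 := tail_le s (n + 1)
  have h3 : Real.pi < 3.15 := Real.pi_lt_d2
  have h4 := ell_pos (n + 1)
  nlinarith

theorem xs_lt {s t : ℕ → Bool} {n : ℕ} (h : ∀ k < n, s k = t k) (hs : s n = true)
    (ht : t n = false) : xs t < xs s := by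
  rw [xs_split s (n + 1), xs_split t (n + 1), Finset.sum_range_succ, Finset.sum_range_succ]
  have h1 : ∑ k ∈ Finset.range n, tt t k = ∑ k ∈ Finset.range n, tt s k := by
    apply Finset.sum_congr rfl
    intro k hk
    unfold tt
    rw [h k (Finset.mem_range.mp hk)]
  have h2 : tt s n = 2 * Real.pi * ell n := by
    unfold tt bb
    rw [if_pos hs, mul_one]
  have h3 : tt t n = 0 := by
    unfold tt bb
    rw [if_neg (by rw [ht]; decide), mul_zero]
  have h4 := tail_nonneg s (n + 1)
  have h5 := tail_le t (n + 1)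
  have h6 := ell_succ n
  have h7 := ell_pos n
  have h8 := Real.pi_pos
  rw [h1, h2, h3]
  have h9 : 4 * Real.pi * ell (n + 1) ≤ 4 * Real.pi * (ell n / 4) :=
    mul_le_mul_of_nonneg_left h6 (by positivity)
  have h10 : 0 < Real.pi * ell n := by positivity
  nlinarith

theorem xs_inj : Function.Injective xs := by
  classical
  intro s t hst
  by_contra hne
  have hex : ∃ n, s n ≠ t n := by
    by_contra hc
    push Not at hc
    exact hne (funext hc)
  have hn := Nat.find_spec hex
  have hlt : ∀ k < Nat.find hex, s k = t k := fun k hk => by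
    have := Nat.find_min hex hk
    push Not at this
    exact this
  cases hs : s (Nat.find hex) with
  | true =>
    cases ht : t (Nat.find hex) with
    | true => exact hn (by rw [hs, ht])
    | false => exact absurd hst (xs_lt hlt hs ht).ne'
  | false =>
    cases ht : t (Nat.find hex) with
    | true => exact absurd hst (xs_lt (fun k hk => (hlt k hk).symm) ht hs).ne
    | false => exact hn (by rw [hs, ht])

theorem t_unc : ¬ E.Countable ∧ E.Nonempty := by
  refine ⟨?_, ⟨xs fun _ => false, xs_mem _⟩⟩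
  intro hE
  have h1 : (xs ⁻¹' E).Countable := hE.preimage xs_inj
  have h2 : xs ⁻¹' E = Set.univ := Set.eq_univ_of_forall fun s => xs_mem s
  rw [h2, Set.countable_univ_iff] at h1
  obtain ⟨f, hf⟩ := exists_surjective_nat (ℕ → Bool)
  obtain ⟨n, hn⟩ := hf fun n => !(f n n)
  have h3 := congrFun hn n
  cases h4 : f n n with
  | true => rw [h4] at h3; exact absurd h3 (by decide)
  | false => rw [h4] at h3; exact absurd h3 (by decide)

end Pool.Agent.W381.QL
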